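import Pool.Agent.W2helper26.PB.Stm
import Pool.Agent.W2helper61.Bridge

/-!
# Project PB, piece RED: the reduction is computable in polynomial time
-/

set_option autoImplicit false

namespace Pool.Agent.W2helper51.PB

open Pool.Agent.H583R2 Pool.Agent.W2helper61 Pool.Agent.W2helper26.PB
open Pool.Agent.NPC (pairBits PolyTime)

theorem pf_pairBits {α : Type} [TEnc α] {x w : α → List Bool} (hx : PF x) (hw : PF w) :
    PF (fun a => pairBits (x a) (w a)) :=
  PF.append (PF.flatMap (f := fun _ b => [true, b]) hx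
    (PF.cons (PF.const true) (PF.cons PF.snd (PF.const [])))) (PF.cons (PF.const false) hw)

/-- the exponent between two levels -/
def Ex (c₀ : ℕ) (i : Ix) : ℕ := 2 ^ 2 ^ (c₀ + 2 * i.1.length + i.2)

theorem one_le_Ex (c₀ : ℕ) (i : Ix) : 1 ≤ Ex c₀ i := Nat.one_le_two_pow

theorem lev_zero (c₀ : ℕ) (i : Ix) : lev c₀ i 0 = 2 := by
  simp [lev]

theorem lev_succ (c₀ : ℕ) (i : Ix) (m : ℕ) : lev c₀ i (m + 1) = lev c₀ i m ^ Ex c₀ i := by
  unfold lev Ex
  rw [← pow_mul, ← pow_add]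
  congr 2
  ring

theorem le_lev (c₀ : ℕ) (i : Ix) (m : ℕ) : m ≤ lev c₀ i m := by
  unfold lev
  have h1 : m ≤ m * 2 ^ (c₀ + 2 * i.1.length + i.2) :=
    Nat.le_mul_of_pos_right m (by positivity)
  have h2 : m * 2 ^ (c₀ + 2 * i.1.length + i.2) < 2 ^ (m * 2 ^ (c₀ + 2 * i.1.length + i.2)) :=
    Nat.lt_two_pow_self
  have h3 : 2 ^ (m * 2 ^ (c₀ + 2 * i.1.length + i.2)) <
      2 ^ 2 ^ (m * 2 ^ (c₀ + 2 * i.1.length + i.2)) := Nat.lt_two_pow_self
  omega

/-- one step of the search for the level -/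
def stp (E n : ℕ) (s : ℕ × ℕ) : ℕ × ℕ := if decide (n ≤ s.2) then s else (s.1 + 1, s.2 ^ E)

theorem stp_inv (c₀ : ℕ) (i : Ix) (n j : ℕ) : ∃ m : ℕ,
    (stp (Ex c₀ i) n)^[j] (0, 2) = (m, lev c₀ i m) ∧ m ≤ j ∧ lev c₀ i m ≤ (n + 2) ^ Ex c₀ i ∧
      (n ≤ lev c₀ i m ∨ m = j) := by
  induction j with
  | zero =>
    refine ⟨0, ?_, le_rfl, ?_, Or.inr rfl⟩
    · rw [lev_zero]
      rfl
    · rw [lev_zero]
      calc 2 ≤ (n + 2) ^ 1 := by rw [pow_one]; omega
        _ ≤ (n + 2) ^ Ex c₀ i := Nat.pow_le_pow_right (by omega) (one_le_Ex c₀ i)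
  | succ j ih =>
    obtain ⟨m, h1, h2, h3, h4⟩ := ih
    rw [Function.iterate_succ_apply', h1]
    by_cases h : n ≤ lev c₀ i m
    · refine ⟨m, ?_, by omega, h3, Or.inl h⟩
      simp [stp, h]
    · refine ⟨m + 1, ?_, by omega, ?_, Or.inr ?_⟩
      · simp only [stp, h, decide_false, Bool.false_eq_true, if_false]
        rw [lev_succ]
      · rw [lev_succ]
        exact Nat.pow_le_pow_left (by omega) _
      · rcases h4 with h4 | h4
        · exact absurd h4 h
        · rw [h4]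

theorem pf_stp (c₀ : ℕ) (i : Ix) :
    PF (fun x : List Bool => (stp (Ex c₀ i) x.length)^[x.length] (0, 2)) := by
  have hb : PF (fun x : List Bool => (x.length, (x.length + 2) ^ Ex c₀ i)) :=
    PF.pair (PF.length PF.id) (pf_powN (PF.add (PF.length PF.id) (PF.const 2)) _)
  refine PF.iterate (n := fun x : List Bool => x.length) (s := fun _ => ((0 : ℕ), (2 : ℕ)))
    (f := fun x s => stp (Ex c₀ i) x.length s) (PF.length PF.id) (PF.const _) ?_ hb.size ?_
  · exact PF.ite (PF.le (PF.length PF.fst) (PF.snd' PF.snd)) PF.snd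
      (PF.pair (PF.succ (PF.fst' PF.snd)) (pf_powN (PF.snd' PF.snd) _))
  · intro x j hj
    obtain ⟨m, h1, h2, h3, -⟩ := stp_inv c₀ i x.length j
    change sz ((stp (Ex c₀ i) x.length)^[j] (0, 2)) ≤ _
    rw [h1, sz_pair, sz_pair, sz_nat, sz_nat, sz_nat, sz_nat]
    have : m ≤ x.length := h2.trans hj
    omega

/-- RED -/
theorem p_red : P_red := by
  intro c₀ i
  refine ⟨fun x => pairBits (List.replicate
      (((stp (Ex c₀ i) x.length)^[x.length] (0, 2)).2 ^ Ex c₀ i) true ++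
      false :: pairBits i.1 (pairBits (List.replicate i.2 true)
        (List.replicate ((stp (Ex c₀ i) x.length)^[x.length] (0, 2)).1 true))) x, ?_, ?_⟩
  · refine tm_of_pf id ?_
    have hs := pf_stp c₀ i
    exact pf_pairBits (PF.append (PF.replicate (pf_powN (PF.snd' hs) _) (PF.const true))
      (PF.cons (PF.const false) (pf_pairBits (PF.const i.1)
        (pf_pairBits (PF.const (List.replicate i.2 true))
          (PF.replicate (PF.fst' hs) (PF.const true)))))) PF.id
  · intro x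
    obtain ⟨m, h1, h2, h3, h4⟩ := stp_inv c₀ i x.length x.length
    refine ⟨m, ?_, ?_⟩
    · simp only [h1]
      unfold gam
      rw [lev_succ]
    · rcases h4 with h4 | h4
      · exact h4
      · have := le_lev c₀ i m
        omega

end Pool.Agent.W2helper51.PB
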